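import Pool.Agent.Helper76.TC2.Goals
import Pool.Agent.Helper85.TC.CR

/-!
# Project TC2 (MP_ccd65d_gt), packet CR
-/

set_option autoImplicit false

open Set

namespace Pool.Agent.Helper4.TC2.CR

open Pool.Agent.Helper76.TC Pool.Agent.Helper76.TC2 Pool.Agent.Helper85.TC.CR

theorem t (hWT : S_WT) (hWS : S_WS) (hCL : S_CL2) : S_CR2 := by
  intro z i b hb
  obtain ⟨hcat, -, hmono, -⟩ := hWT 3 mm
  obtain ⟨j, k, hji, hki, hjk, hl, hmm⟩ := idx i
  obtain ⟨aj', ak', hj0, hj1, hk0, hk1, hdj, hdk, hmed⟩ := vals (z i) b (fo (z j)) (fo (z k))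
    (mm z) hb (fo_nonneg _) (fo_le _) (fo_nonneg _) (fo_le _) (hmm z).symm
  obtain ⟨z1, hz1d⟩ : ∃ z1 : Fin 3 → ℝ, z1 =
    Function.update (Function.update z j (pt (z j) aj')) k (pt (z k) ak') := ⟨_, rfl⟩
  have z1i : z1 i = z i := by
    rw [hz1d, Function.update_of_ne hki.symm, Function.update_of_ne hji.symm]
  have z1j : z1 j = pt (z j) aj' := by
    rw [hz1d, Function.update_of_ne hjk, Function.update_self]
  have z1k : z1 k = pt (z k) ak' := by
    rw [hz1d, Function.update_self]
  have hfj : fo (z1 j) = aj' := by rw [z1j, pt_fo _ _ hj0 hj1]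
  have hfk : fo (z1 k) = ak' := by rw [z1k, pt_fo _ _ hk0 hk1]
  have hdist : ∀ l, |z1 l - z l| ≤ |b - z i| := by
    intro l
    rcases hl l with h | h | h
    · rw [h, z1i, sub_self, abs_zero]
      exact abs_nonneg _
    · rw [h, z1j, pt_dist]; exact hdj
    · rw [h, z1k, pt_dist]; exact hdk
  have hcell : ∀ l, Cell (z l) (z1 l) := by
    intro l
    rcases hl l with h | h | h
    · rw [h, z1i]; exact cell_refl _
    · rw [h, z1j]; exact pt_cell _ _ hj0 hj1
    · rw [h, z1k]; exact pt_cell _ _ hk0 hk1
  have hrun : ∀ s ∈ uIcc (z i) b, mm (Function.update z1 i s) = mm z := by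
    intro s hs
    rw [hmm, Function.update_self, Function.update_of_ne hji, Function.update_of_ne hki, hfj, hfk]
    exact hmed s hs
  have hz1 : mm z1 = mm z := by
    have := hrun (z i) left_mem_uIcc
    rwa [← z1i, Function.update_eq_self] at this
  have hzb : mm (Function.update z i b) = mm z := by
    rw [hmm, Function.update_self, Function.update_of_ne hji, Function.update_of_ne hki, hb, ← hmm]
  have hzb1 : mm (Function.update z1 i b) = mm z := hrun b right_mem_uIcc
  -- the three norms
  have n1 : ‖z - z1‖ ≤ |b - z i| := by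
    rw [pi_norm_le_iff_of_nonneg (abs_nonneg _)]
    intro l
    rw [Pi.sub_apply, Real.norm_eq_abs, abs_sub_comm]
    exact hdist l
  have n2 : ‖z1 - Function.update z1 i b‖ ≤ |b - z i| := by
    rw [pi_norm_le_iff_of_nonneg (abs_nonneg _)]
    intro l
    rw [Pi.sub_apply, Real.norm_eq_abs]
    by_cases h : l = i
    · rw [h, Function.update_self, z1i, abs_sub_comm]
    · rw [Function.update_of_ne h, sub_self, abs_zero]
      exact abs_nonneg _
  have n3 : ‖Function.update z1 i b - Function.update z i b‖ ≤ |b - z i| := by
    rw [pi_norm_le_iff_of_nonneg (abs_nonneg _)]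
    intro l
    rw [Pi.sub_apply, Real.norm_eq_abs]
    by_cases h : l = i
    · rw [h, Function.update_self, Function.update_self, sub_self, abs_zero]
      exact abs_nonneg _
    · rw [Function.update_of_ne h, Function.update_of_ne h]
      exact hdist l
  have w1 : W 3 mm (3 * |b - z i|) 0 z z1 := by
    refine hmono _ _ _ _ z z1 ?_ ?_ (hCL z z1 hcell)
    · linarith
    · rw [hz1, sub_self, abs_zero]
  have w2 : W 3 mm |b - z i| 0 z1 (Function.update z1 i b) := by
    refine hmono _ _ _ _ z1 _ n2 ?_ (hWS 3 mm z1 (Function.update z1 i b) (Or.inl ?_))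
    · rw [hz1, hzb1, sub_self, abs_zero]
    · have hc : ∀ s ∈ Icc (0 : ℝ) 1, mm (z1 + s • (Function.update z1 i b - z1)) = mm z := by
        intro s hs
        have h1 : z1 + s • (Function.update z1 i b - z1) =
            Function.update z1 i ((1 - s) * z i + s * b) := by
          funext l
          by_cases h : l = i
          · rw [h]
            simp only [Pi.add_apply, Pi.smul_apply, Pi.sub_apply, Function.update_self, z1i,
              smul_eq_mul]
            ring
          · simp only [Pi.add_apply, Pi.smul_apply, Pi.sub_apply, Function.update_of_ne h,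
              smul_eq_mul, sub_self, mul_zero, add_zero]
        rw [h1]
        apply hrun
        rw [mem_uIcc]
        rcases le_total (z i) b with h | h
        · left
          constructor <;> nlinarith [hs.1, hs.2]
        · right
          constructor <;> nlinarith [hs.1, hs.2]
      intro s hs s' hs' _
      have e : mm (z1 + s • (Function.update z1 i b - z1)) =
          mm (z1 + s' • (Function.update z1 i b - z1)) := by rw [hc s hs, hc s' hs']
      exact e.le
  have w3 : W 3 mm (3 * |b - z i|) 0 (Function.update z1 i b) (Function.update z i b) := by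
    refine hmono _ _ _ _ _ _ ?_ ?_ (hCL (Function.update z1 i b) (Function.update z i b) ?_)
    · linarith
    · rw [hzb, hzb1, sub_self, abs_zero]
    · intro l
      by_cases h : l = i
      · rw [h, Function.update_self, Function.update_self]; exact cell_refl _
      · rw [Function.update_of_ne h, Function.update_of_ne h]
        exact cell_symm (hcell l)
  refine hmono _ _ _ _ _ _ ?_ ?_ (hcat _ _ _ _ _ _ _ (hcat _ _ _ _ _ _ _ w1 w2) w3)
  · linarith
  · linarith

end Pool.Agent.Helper4.TC2.CR
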